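import Pool.Agent.H39.VQ.Targets

/-!
# FN: the theorem, second version (adapted from helper4)
-/

set_option autoImplicit false

open Finset Polynomial

namespace Pool.Agent.H67.VQ

open Pool.Agent.H11.CV Pool.Agent.H39.VQ

/-- Module FN. -/
theorem pf_FN (hAS : V_AS) (hJB : T_JB) : V_FN := by
  intro k hk
  obtain ⟨p, hpk, hp⟩ := Nat.exists_infinite_primes (16 * k ^ 3)
  obtain ⟨C, hC0, hC⟩ := hAS k p (by omega) hp hpk
  set γ : ℝ := ((k : ℝ) - 3) / ((k : ℝ) - 2) with hγ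
  have hkR : (3 : ℝ) ≤ k := by exact_mod_cast hk
  have hγ0 : 0 ≤ γ := div_nonneg (by linarith) (by linarith)
  have hγ1 : γ ≤ 1 := by
    rw [hγ, div_le_one (by linarith)]
    linarith
  have hlog3 : 1 < Real.log 3 := by
    rw [Real.lt_log_iff_exp_lt (by norm_num)]
    have := Real.exp_one_lt_d9
    linarith
  set c0 : ℝ := Real.log (Real.log 3) with hc0
  have hc0pos : 0 < c0 := Real.log_pos hlog3
  have hp3 : 3 ≤ p := by
    have : 1 ≤ k ^ 3 := Nat.one_le_pow _ _ (by omega)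
    omega
  have hpR : (3 : ℝ) ≤ p := by exact_mod_cast hp3
  have hlogp : 1 ≤ Real.log p := hlog3.le.trans (Real.log_le_log (by norm_num) hpR)
  have hp0 : (0 : ℝ) < p := by linarith
  refine ⟨2 * C * (1 + Real.log 3 / c0) ^ 2 + (KK k : ℝ) * Real.log p / c0 ^ 2, ?_⟩
  intro N hN
  have hNR : (3 : ℝ) ≤ N := by exact_mod_cast hN
  have hN0 : (0 : ℝ) < N := by linarith
  set L : ℝ := Real.log N with hL
  have hL3 : Real.log 3 ≤ L := Real.log_le_log (by norm_num) hNR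
  have hL1 : 1 ≤ L := by linarith
  have hLp : 0 < L := by linarith
  have hll : c0 ≤ Real.log L := Real.log_le_log (by linarith) hL3
  have hll0 : 0 < Real.log L := by linarith
  set n : ℕ := Nat.log p N + 1 with hn
  have hNlt : N < p ^ n := Nat.lt_pow_succ_log_self hp.one_lt N
  have hNge : p ^ (Nat.log p N) ≤ N := Nat.pow_log_le_self p (by omega)
  have hNgeR : (p : ℝ) ^ (Nat.log p N) ≤ N := by exact_mod_cast hNge
  have hcard := hJB k p n N _ (by omega) hp hNlt (Real.exp_pos _).le (hC n (by omega))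
  -- bound for `n`
  have hlogn : (Nat.log p N : ℝ) ≤ L := by
    have h1 : Real.log ((p : ℝ) ^ (Nat.log p N)) ≤ L :=
      Real.log_le_log (pow_pos hp0 _) hNgeR
    rw [Real.log_pow] at h1
    calc (Nat.log p N : ℝ) = (Nat.log p N : ℝ) * 1 := (mul_one _).symm
      _ ≤ (Nat.log p N : ℝ) * Real.log p :=
        mul_le_mul_of_nonneg_left hlogp (Nat.cast_nonneg _)
      _ ≤ L := h1
  have hnR : (n : ℝ) = (Nat.log p N : ℝ) + 1 := by rw [hn]; push_cast; ring
  have hn2 : (n : ℝ) ≤ 2 * L := by rw [hnR]; linarith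
  have hn1 : (1 : ℝ) ≤ n := by rw [hnR]; have := Nat.cast_nonneg (α := ℝ) (Nat.log p N); linarith
  have hnγ : (n : ℝ) ^ γ ≤ 2 * L ^ γ := by
    calc (n : ℝ) ^ γ ≤ (2 * L) ^ γ := Real.rpow_le_rpow (by linarith) hn2 hγ0
      _ = 2 ^ γ * L ^ γ := Real.mul_rpow (by norm_num) hLp.le
      _ ≤ 2 * L ^ γ := by
        apply mul_le_mul_of_nonneg_right _ (Real.rpow_nonneg hLp.le _)
        calc (2 : ℝ) ^ γ ≤ 2 ^ (1 : ℝ) := Real.rpow_le_rpow_of_exponent_le (by norm_num) hγ1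
          _ = 2 := Real.rpow_one 2
  have hlogn1 : Real.log ((n : ℝ) + 1) ≤ (1 + Real.log 3 / c0) * Real.log L := by
    calc Real.log ((n : ℝ) + 1) ≤ Real.log (3 * L) :=
          Real.log_le_log (by linarith) (by linarith)
      _ = Real.log 3 + Real.log L := Real.log_mul (by norm_num) hLp.ne'
      _ ≤ (1 + Real.log 3 / c0) * Real.log L := by
        have h1 : Real.log 3 ≤ Real.log 3 / c0 * Real.log L := by
          rw [div_mul_eq_mul_div, le_div_iff₀ hc0pos]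
          exact mul_le_mul_of_nonneg_left hll (by linarith)
        linarith
  have hLγ1 : 1 ≤ L ^ γ := Real.one_le_rpow hL1 hγ0
  have hLγ0 : 0 ≤ L ^ γ := by linarith
  have hlogn0 : 0 ≤ Real.log ((n : ℝ) + 1) := Real.log_nonneg (by linarith)
  -- the two parts of the exponent
  have h1 : C * (n : ℝ) ^ γ * Real.log ((n : ℝ) + 1) ^ 2 ≤
      2 * C * (1 + Real.log 3 / c0) ^ 2 * L ^ γ * Real.log L ^ 2 := by
    have h5 : Real.log ((n : ℝ) + 1) ^ 2 ≤ ((1 + Real.log 3 / c0) * Real.log L) ^ 2 :=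
      pow_le_pow_left₀ hlogn0 hlogn1 2
    have h2 : (n : ℝ) ^ γ * Real.log ((n : ℝ) + 1) ^ 2 ≤
        (2 * L ^ γ) * ((1 + Real.log 3 / c0) * Real.log L) ^ 2 :=
      mul_le_mul hnγ h5 (by positivity) (by linarith)
    calc C * (n : ℝ) ^ γ * Real.log ((n : ℝ) + 1) ^ 2
        = C * ((n : ℝ) ^ γ * Real.log ((n : ℝ) + 1) ^ 2) := by ring
      _ ≤ C * ((2 * L ^ γ) * ((1 + Real.log 3 / c0) * Real.log L) ^ 2) :=
        mul_le_mul_of_nonneg_left h2 hC0
      _ = _ := by ring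
  have h2 : (KK k : ℝ) * Real.log p ≤
      (KK k : ℝ) * Real.log p / c0 ^ 2 * L ^ γ * Real.log L ^ 2 := by
    have h3 : 0 ≤ (KK k : ℝ) * Real.log p := mul_nonneg (Nat.cast_nonneg _) (by linarith)
    have h4 : c0 ^ 2 ≤ L ^ γ * Real.log L ^ 2 := by
      calc c0 ^ 2 ≤ Real.log L ^ 2 := pow_le_pow_left₀ hc0pos.le hll 2
        _ = 1 * Real.log L ^ 2 := (one_mul _).symm
        _ ≤ L ^ γ * Real.log L ^ 2 := mul_le_mul_of_nonneg_right hLγ1 (by positivity)
    calc (KK k : ℝ) * Real.log p = (KK k : ℝ) * Real.log p / c0 ^ 2 * c0 ^ 2 := by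
          field_simp
      _ ≤ (KK k : ℝ) * Real.log p / c0 ^ 2 * (L ^ γ * Real.log L ^ 2) :=
        mul_le_mul_of_nonneg_left h4 (div_nonneg h3 (by positivity))
      _ = _ := by ring
  have h3 : ((p : ℝ) ^ n) ^ (KK k) ≤ (N : ℝ) ^ (KK k) * Real.exp ((KK k : ℝ) * Real.log p) := by
    have h4 : (p : ℝ) ^ n ≤ N * p := by
      rw [hn, pow_succ]
      exact mul_le_mul_of_nonneg_right hNgeR hp0.le
    calc ((p : ℝ) ^ n) ^ (KK k) ≤ (N * p) ^ (KK k) :=
          pow_le_pow_left₀ (pow_nonneg hp0.le _) h4 _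
      _ = (N : ℝ) ^ (KK k) * (p : ℝ) ^ (KK k) := mul_pow _ _ _
      _ = _ := by
        rw [Real.exp_nat_mul, Real.exp_log hp0]
  have hKK : KK k = k * (k + 1) / 2 := rfl
  rw [← hKK]
  calc ((sols (KK k) k N).card : ℝ)
      ≤ Real.exp (C * (n : ℝ) ^ γ * Real.log ((n : ℝ) + 1) ^ 2) * ((p : ℝ) ^ n) ^ (KK k) := hcard
    _ ≤ Real.exp (C * (n : ℝ) ^ γ * Real.log ((n : ℝ) + 1) ^ 2) *
        ((N : ℝ) ^ (KK k) * Real.exp ((KK k : ℝ) * Real.log p)) :=
        mul_le_mul_of_nonneg_left h3 (Real.exp_pos _).le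
    _ = (N : ℝ) ^ (KK k) * Real.exp (C * (n : ℝ) ^ γ * Real.log ((n : ℝ) + 1) ^ 2 +
        (KK k : ℝ) * Real.log p) := by
        rw [Real.exp_add]; ring
    _ ≤ (N : ℝ) ^ (KK k) * Real.exp ((2 * C * (1 + Real.log 3 / c0) ^ 2 +
        (KK k : ℝ) * Real.log p / c0 ^ 2) * L ^ γ * Real.log L ^ 2) := by
        apply mul_le_mul_of_nonneg_left _ (pow_nonneg hN0.le _)
        apply Real.exp_le_exp.mpr
        calc C * (n : ℝ) ^ γ * Real.log ((n : ℝ) + 1) ^ 2 + (KK k : ℝ) * Real.log p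
            ≤ 2 * C * (1 + Real.log 3 / c0) ^ 2 * L ^ γ * Real.log L ^ 2 +
              (KK k : ℝ) * Real.log p / c0 ^ 2 * L ^ γ * Real.log L ^ 2 := add_le_add h1 h2
          _ = _ := by ring

end Pool.Agent.H67.VQ
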